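import Mathlib
import Pool.Agent.KS6_5.OG.Torus

/-!
# The motivic Sato-Tate conjecture for abelian varieties with one Frobenius whose numbers have
different real fields with one place above `p`

Let `A` be any abelian variety over a finitely generated subfield `k₀` of the complex numbers (no
condition on the dimension and the endomorphisms; factors of type IV are allowed), and `M = h^1(A)`.
Let `γ` be a Frobenius element at ONE place of good reduction, the residue field having `q = p ^ a`
elements, for which the characteristic polynomial is the product of the minimal polynomials of Weil
numbers `π i` in CM fields `E i` (`i` in a finite set), with the following properties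
(`IsOnePlaceNumbers`):

* `π i` generates `E i`, and `π i`, `π j` are not conjugate for `i ≠ j`;
* the slopes of the conjugates of `π i` are `1 / 2 + δ i` and `1 / 2 - δ i` only, `δ i > 0` (for
  ordinary reduction all `δ i` are `1 / 2`), and for `δ i ≠ δ j` no power of `z ^ 2 / q` is a power of
  `z' ^ 2 / q`, for the conjugates `z` of `π i` and `z'` of `π j`;
* for each conjugate `z` of each `π i`, for some `m > 0`, the number `z ^ m + (q / z) ^ m` is contained
  in a Galois extension of `ℚ` with one place above `p` and with cyclic Sylow `2`-subgroups of the
  Galois group: for instance in a cyclic field in which `p` is inert or totally ramified, or in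
  any Galois field of odd degree in which `p` does not split. **This field may be different for
  different `z` and `i`**;
* `z z' / q` is not a root of unity different from one, for all conjugates `z`, `z'` of the `π i`
  (this is true after a finite extension of `k₀`).

**Theorem.** (1) There are no relations: each function `b` with integral values on the set of the
complex embeddings `φ` of the fields `E i` which changes its sign under complex conjugation, such that
the product of the `φ (π i) ^ b (φ)` is a root of unity, is zero (`relations`). That is, the Frobenius
torus has the largest possible rank `dim A + 1`.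

(2) Over `k₀` and over every finite extension `k'` of `k₀` (the fixed field of a subgroup `Δ` of
finite index of the Galois group) and for the prime `ℓ` of the Tate module

* the motivic Tate conjecture holds for `M`: the `ℓ`-adic monodromy group `G_{ℓ,k'}(M)` is the motivic
  Galois group `𝒢_{k'}(M)` (over `ℚ_ℓ`);
* the motivic Sato-Tate conjecture (Q1) holds for `M`: `G_{1,ℓ,k'}(M) = 𝒢_{1,k'}(M)`.

(3) The conditions are satisfied if the `E i` are **different imaginary quadratic fields** and `p` does
not divide the numbers `b i = π i + q / π i`, i. e. for the abelian varieties with a reduction isogenous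
to a product of pairwise nonisogenous ordinary elliptic curves; `A` itself can be absolutely simple,
with any endomorphisms. Other examples: the reduction is isogenous to a product of such elliptic
curves, ordinary abelian surfaces with real multiplication by quadratic fields in which `p` is
inert or ramified, ordinary abelian varieties of any dimension `d` with real multiplication by
cyclic fields of degree `d` in which `p` is inert, in arbitrary number, pairwise nonisogenous
over an algebraic closure.

The equality in (2) is an equality of group schemes: for the groups of the points with values in any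
commutative `ℚ_ℓ`-algebra `R`. Both groups are defined by tensors. `G_{ℓ,k'}(M)` is the group of the
automorphisms `u` of `R ⊗ V`, with a factor `c` for the Tate motive, which fix all Galois invariant
elements of the spaces `(V*)^{⊗ 2 m}(m)` (`monodromy`; this is the tannakian definition in the problem,
since the representation is semisimple by the theorem of Faltings and the tensors without weight are
of this form by the Weil pairing). `𝒢_{k'}(M)` is the group of the automorphisms which fix the
motivic classes (absolute Hodge classes) over `k'`, which by Deligne's theorem are the Hodge classes whose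
`ℓ`-adic realization is Galois invariant (`motivic`). The kernel of the multiplier is the group of the
`u` with `c = 1`: the form `ω` is one of the motivic tensors. Since the tannakian groups of all motives in
the category generated by `h^1(A)` are quotients of the two groups, Q1 follows for all these
motives (this is not formalized).

Relation to other results. The deduction of (2) from (1) is the one of the starting file
`LargeFrobeniusTorus` on this problem (a defect `D` with `4 D < g`); for `D = 0`, the case of (1), it is
due to Zarhin, Larsen and Pink. New is (1), the maximality of the Frobenius torus. The criteria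
of the starting files (`FrobeniusPatterns`, `FrobeniusSlopeSums`, `TypicalFields` and others) use
large Galois groups of the fields `E i` or special slopes, and other criteria need `p` and one field
containing all real multiplications. Here the Galois groups can be as small as possible (quadratic
fields; cyclic fields; fields `E i` which are reducible over each other), and there are only two
slopes. The arithmetic is the same as in `OnePlaceDifferentFields` (problem MP_2a05c8_ag).

The proof of (1). The logarithms of the absolute values of the conjugates of `x = z ^ 2 / q` define a
function `F₁` with values `± 1` (times `δ`) on the Galois group `G` of the algebraic numbers. If the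
field `F` of `x + 1 / x` has one place above `p` then `G = D H₁`, where `F₁` is invariant on the left by
the decomposition group `D`, and multiplied by a sign under the right translations by the elements
of the normal subgroup `H₁` of the automorphisms over `F`. Let `F₂`, `H₂` belong to another number
`y`. Then `B(h', h) = P(h' h) P(h') P(h) P(1)`, with `P = F₁ F₂`, is given by the commutator of `H₁` and
`H₂`. It is a bilinear form on `H₁ / (H₁ ∩ H₂)` with `B(h, h) = 1`, unless `P` changes its sign under a
right translation by a square; so it is trivial if the Sylow `2`-subgroups are cyclic. Hence `P` is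
constant or changes its sign under some right translation: the functions of slopes of `x` and `y`
are proportional or orthogonal to each other. If they are proportional, the numbers are equal or
inverse to each other up to roots of unity. In a relation we match the pairs with product `q` as long as
possible; the functions of slopes of the unmatched numbers have nonnegative inner products and
the sum zero, so that there are none.

In the Lean statement `H` is `H_1(A, ℚ)`, `T` the tangent space at the origin, `per : H → T` the
inclusion; `ρ`, `χ`, `ω` are the Galois representation on the Tate module `ℚ_ℓ ⊗ H`, the cyclotomic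
character and the Weil pairing (`IsAbelianVariety`; this contains the theorems of Faltings, the
theorem of Deligne and the theorem on centres of Vasiu, Ullmo and Yafaev); `GaloisActsOnHodge` is the
full theorem of Deligne: the Galois group transforms Hodge classes into Hodge classes.
-/

set_option autoImplicit false

namespace Pool.Agent.Results.MP_d61fbb_ag.DifferentRealFields

open NumberField Module TensorProduct Polynomial IntermediateField Pool.Agent.H204R3.GP
  Pool.Agent.W516.MTD Pool.Agent.TH776.FM Pool.Agent.Q43.ST Pool.Agent.KS6_5.OG

/-- **The motivic Tate conjecture and the motivic Sato-Tate conjecture for abelian varieties with one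
Frobenius element whose numbers have two slopes `1 / 2 ± δ i` and real fields, which may be different,
with one place above `p` and cyclic Sylow `2`-subgroups.** -/
theorem result :
    (∀ (p : ℕ) [Fact p.Prime] (a : ℕ), 0 < a → ∀ (I : Type) [Fintype I] (δ : I → ℝ) (E : I → Type)
      [∀ i, Field (E i)] [∀ i, NumberField (E i)] [∀ i, IsCMField (E i)] (π : ∀ i, E i),
      IsOnePlaceNumbers p a δ π →
      Pool.Agent.Q43.RP.relations E π = {0} ∧
      ∀ (ℓ : ℕ) [Fact ℓ.Prime] (H T Γ : Type) [AddCommGroup H] [Module ℚ H]
        [FiniteDimensional ℚ H] [AddCommGroup T] [Module ℂ T] [Group Γ] (per : H →+ T)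
        (ω₀ : H →ₗ[ℚ] H →ₗ[ℚ] ℚ) (ρ : Representation ℚ_[ℓ] Γ (ℚ_[ℓ] ⊗[ℚ] H)) (χ : Γ →* ℚ_[ℓ])
        (ω : ℚ_[ℓ] ⊗[ℚ] H →ₗ[ℚ_[ℓ]] ℚ_[ℓ] ⊗[ℚ] H →ₗ[ℚ_[ℓ]] ℚ_[ℓ]),
        IsAbelianVariety per ω₀ ρ χ ω → GaloisActsOnHodge per ρ χ →
        ∀ γ : Γ, χ γ = ((p ^ a : ℕ) : ℚ_[ℓ]) →
        (ρ γ).charpoly = (∏ i, minpoly ℚ (π i)).map (algebraMap ℚ ℚ_[ℓ]) →
        ∀ Δ : Subgroup Γ, Δ.FiniteIndex → ∀ (R : Type) [CommRing R] [Algebra ℚ_[ℓ] R],
          monodromy ρ χ Δ R = motivic per ρ χ Δ R ∧
          multiplierKernel (monodromy ρ χ Δ R) = multiplierKernel (motivic per ρ χ Δ R)) ∧
    (∀ (p : ℕ) [Fact p.Prime] (a : ℕ), 0 < a → ∀ (I : Type) (E : I → Type)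
      [∀ i, Field (E i)] [∀ i, NumberField (E i)] [∀ i, IsCMField (E i)] (π : ∀ i, E i)
      (b : I → ℤ), (∀ i, ℚ⟮π i⟯ = ⊤) →
      (∀ i, minpoly ℤ (π i) = X ^ 2 - C (b i) * X + C (((p ^ a : ℕ) : ℤ))) →
      (∀ i, ¬ (p : ℤ) ∣ b i) → (∀ i, b i ^ 2 < 4 * (p ^ a : ℕ)) →
      (∀ i j, i ≠ j → ¬ IsSquare ((b i ^ 2 - 4 * (p ^ a : ℕ)) * (b j ^ 2 - 4 * (p ^ a : ℕ)))) →
      IsOnePlaceNumbers p a (fun _ : I => 1 / 2) π) := by
  refine ⟨?_, ?_⟩
  · intro p _ a ha I _ δ E _ _ _ π H
    refine ⟨relations_of_family ha H, ?_⟩
    intro ℓ _ H₁ T Γ _ _ _ _ _ _ per ω₀ ρ χ ω hA hD γ hχ hγ Δ hΔ R _ _
    have hq : 0 < p ^ a := pow_pos (Fact.out : p.Prime).pos _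
    have hweil : ∀ i, ∀ φ : E i →+* ℂ, ‖φ (π i)‖ ^ 2 = ((p ^ a : ℕ) : ℝ) := by
      intro i φ
      have h1 := congrArg (fun x => φ x) (H.weight i)
      simp only [map_mul, map_pow, map_natCast] at h1
      rw [← conjugate_apply, ComplexEmbedding.conjugate_coe_eq, Complex.mul_conj,
        Complex.normSq_eq_norm_sq] at h1
      rw [Nat.cast_pow]
      exact_mod_cast h1
    have key : monodromy ρ χ Δ R = motivic per ρ χ Δ R := by
      refine tannakian_eq ((finBasis ℚ H₁).baseChange ℚ_[ℓ]) (fun m φ hφ => hφ.1)
        (fun m φ hφ => ?_) R
      exact descent (finBasis ℚ H₁) per ρ χ hD Δ
        (Pool.Agent.Q43.RP.mt_free E hq π hweil (shortFree_of_family ha H 4) hA γ hχ hγ m φ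
          ⟨Δ, hΔ, hφ⟩) hφ
    exact ⟨key, by rw [key]⟩
  · intro p _ a ha I E _ _ _ π b hgen hmin hb hd h
    exact ell_numbers ha π hgen b hmin hb hd h

end Pool.Agent.Results.MP_d61fbb_ag.DifferentRealFields
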