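import Mathlib
import Pool.Agent.KS6_5.UR.Torus

/-!
# The motivic Sato-Tate conjecture for abelian varieties with one Frobenius element with one unit root

Let `A` be any abelian variety over a finitely generated subfield `k₀` of the complex numbers (no
condition on the dimension and the endomorphisms; factors of type IV are allowed), and `M = h^1(A)`.
Let `γ` be a Frobenius element at ONE place of good reduction, the residue field having `q = p ^ a`
elements, for which the characteristic polynomial is the product of the minimal polynomials of
numbers `π i` of weight one in CM fields `E i` (`i` in a finite set), with the following properties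
(`IsUnitRootNumbers`), the most important of which is a condition on the Newton polygon alone.

* `π i` has **exactly one unit root**: the slope `0` has multiplicity one (`unit`);
* for a prime number `r i` (`2` is allowed) **the numbers `1 - 2 s` are divisible by `r i`** (in the ring
  of the rational numbers with denominators prime to `r i`) for all slopes `s` of `π i` except for `0`
  and `1` (`slopes`);
* for `i ≠ j`, conjugates `z` of `π i` and `z'` of `π j`, some automorphism of the field of algebraic
  numbers fixes a power of one of the numbers `z`, `z'` and maps a power of the other one to its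
  complex conjugate (`flips`; no condition if there is only one `π i`; true if the Galois closures of
  the fields `E i` are linearly disjoint).

**There is no condition on the Galois groups and the subfields of the fields `E i`, on the
decomposition of `p`, and on roots of unity.** The case in which all other slopes are `1 / 2` (for one
number `π`) is the case of the abelian varieties of K3 type of Zarhin. Here the other slopes can be,
for `r = 3`, `1 / 5` and `4 / 5`, `2 / 7` and `5 / 7`, `1 / 8` and `7 / 8`, and `1 / 2`; for `r = 2` all
fractions with denominators `2 m`, `m` odd; for `r = 5` for instance `1 / 7` and `6 / 7`, and so on, with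
any multiplicities. For example `A` can have dimension `6` and a reduction with the slopes `0`, `1`
(once), `1 / 5` and `4 / 5` (five times), the field `E` having degree `12` with an arbitrary Galois group
and arbitrary CM subfields.

**Theorem.** (1) There are no relations: each function `b` with integral values on the set of the
complex embeddings `φ` of the fields `E i` which changes its sign under complex conjugation, such that
the product of the `φ (π i) ^ b (φ)` is a root of unity, is zero (`relations`). That is, the Frobenius
torus has the largest possible rank `dim A + 1`.

(2) Over `k₀` and over every finite extension `k'` of `k₀` (the fixed field of a subgroup `Δ` of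
finite index of the Galois group) and for the prime `ℓ` of the Tate module

* the motivic Tate conjecture holds for `M`: the `ℓ`-adic monodromy group `G_{ℓ,k'}(M)` is the motivic
  Galois group `𝒢_{k'}(M)` (over `ℚ_ℓ`);
* the motivic Sato-Tate conjecture (Q1) holds for `M`: `G_{1,ℓ,k'}(M) = 𝒢_{1,k'}(M)`.

The equality in (2) is an equality of group schemes: for the groups of the points with values in any
commutative `ℚ_ℓ`-algebra `R`. Both groups are defined by tensors. `G_{ℓ,k'}(M)` is the group of the
automorphisms `u` of `R ⊗ V`, with a factor `c` for the Tate motive, which fix all Galois invariant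
elements of the spaces `(V*)^{⊗ 2 m}(m)` (`monodromy`; this is the tannakian definition in the problem,
since the representation is semisimple by the theorem of Faltings and the tensors without weight are
of this form by the Weil pairing). `𝒢_{k'}(M)` is the group of the automorphisms which fix the
motivic classes (absolute Hodge classes) over `k'`, which by Deligne's theorem are the Hodge classes whose
`ℓ`-adic realization is Galois invariant (`motivic`). The kernel of the multiplier is the group of the
`u` with `c = 1`: the form `ω` is one of the motivic tensors. Since the tannakian groups of all motives in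
the category generated by `h^1(A)` are quotients of the two groups, Q1 follows for all these
motives (this is not formalized).

Relation to other results. The deduction of (2) from (1) is the one of the starting file
`LargeFrobeniusTorus` on this problem (a defect `D` with `4 D < g`); for `D = 0`, the case of (1), it is
due to Zarhin, Larsen and Pink. New is (1), the maximality of the Frobenius torus, which for other
slopes `1 / 2` and one `π` is due to Zarhin. The criteria of `SeparatedByFlips` and
`DifferentRealFields` on this problem and of the starting files (`FrobeniusPatterns` and others) need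
automorphisms of each of the fields `E i` or one place above `p`. Starting files on other problems
(`OddSlopeSums`, `TowerFrobenius` on MP_af4e75_ag, `PairFlipNormalFrobenius` on MP_b8862a_ag) contain
criteria with slopes modulo a prime number `r`; those which need no Galois group contain the present
case of one field for `r = 2`, and for `r` odd only if the common denominator of the slopes is
less than `r` (above it is `5` for `r = 3`), or if `r` does not divide the degree of the Galois closure.

The proof of (1). For an embedding `l` of the field of algebraic numbers into the algebraic closure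
of the field of `p`-adic numbers let `F_z (l)` be the logarithm with base `q` of the absolute value of
`l (z ^ 2 / q)`. For conjugates `z`, `z'` of different `π i`, `π j` the functions `F_z`, `F_z'` are
orthogonal to each other for the mean value over all `l`, as the translation by the automorphism in
`flips` preserves one of them and changes the sign of the other one. So the parts of a relation
`∑ b (z) F_z = 0` in the fields `E i` are relations, for real coefficients `F`. In one field let `l` be an
embedding with `l (z)` a unit, for a given `z`. Then `F_z (l) = 1`, and all other values except for the one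
of `q / z` are divisible by `r`. So `b (z)` is divisible by `r`, for all `z`, and we can divide `b` by `r`.

In the Lean statement `H` is `H_1(A, ℚ)`, `T` the tangent space at the origin, `per : H → T` the
inclusion; `ρ`, `χ`, `ω` are the Galois representation on the Tate module `ℚ_ℓ ⊗ H`, the cyclotomic
character and the Weil pairing (`IsAbelianVariety`; this contains the theorems of Faltings, the
theorem of Deligne and the theorem on centres of Vasiu, Ullmo and Yafaev); `GaloisActsOnHodge` is the
full theorem of Deligne: the Galois group transforms Hodge classes into Hodge classes.
-/

set_option autoImplicit false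

namespace Pool.Agent.Results.MP_d61fbb_ag.OneUnitRoot

open NumberField Module TensorProduct Polynomial IntermediateField Pool.Agent.H204R3.GP
  Pool.Agent.W516.MTD Pool.Agent.TH776.FM Pool.Agent.Q43.ST Pool.Agent.KS6_5.UR

/-- The statement of (2) for the numbers `π i`. -/
def SatoTateFor (p a : ℕ) {I : Type} [Fintype I] {E : I → Type} [∀ i, Field (E i)]
    [∀ i, NumberField (E i)] (π : ∀ i, E i) : Prop :=
  ∀ (ℓ : ℕ) [Fact ℓ.Prime] (H T Γ : Type) [AddCommGroup H] [Module ℚ H]
    [FiniteDimensional ℚ H] [AddCommGroup T] [Module ℂ T] [Group Γ] (per : H →+ T)
    (ω₀ : H →ₗ[ℚ] H →ₗ[ℚ] ℚ) (ρ : Representation ℚ_[ℓ] Γ (ℚ_[ℓ] ⊗[ℚ] H)) (χ : Γ →* ℚ_[ℓ])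
    (ω : ℚ_[ℓ] ⊗[ℚ] H →ₗ[ℚ_[ℓ]] ℚ_[ℓ] ⊗[ℚ] H →ₗ[ℚ_[ℓ]] ℚ_[ℓ]),
    IsAbelianVariety per ω₀ ρ χ ω → GaloisActsOnHodge per ρ χ →
    ∀ γ : Γ, χ γ = ((p ^ a : ℕ) : ℚ_[ℓ]) →
    (ρ γ).charpoly = (∏ i, minpoly ℚ (π i)).map (algebraMap ℚ ℚ_[ℓ]) →
    ∀ Δ : Subgroup Γ, Δ.FiniteIndex → ∀ (R : Type) [CommRing R] [Algebra ℚ_[ℓ] R],
      monodromy ρ χ Δ R = motivic per ρ χ Δ R ∧
      multiplierKernel (monodromy ρ χ Δ R) = multiplierKernel (motivic per ρ χ Δ R)

/-- **The motivic Tate conjecture and the motivic Sato-Tate conjecture for abelian varieties with one
Frobenius element with one unit root, whose other slopes `s ≠ 1` have `1 - 2 s` divisible by a prime.** -/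
theorem result (p : ℕ) [Fact p.Prime] (a : ℕ) (ha : 0 < a) (I : Type) [Fintype I] (r : I → ℕ)
    (E : I → Type) [∀ i, Field (E i)] [∀ i, NumberField (E i)] [∀ i, IsCMField (E i)]
    (π : ∀ i, E i) (H : IsUnitRootNumbers p a r π) :
    Pool.Agent.Q43.RP.relations E π = {0} ∧ SatoTateFor p a π := by
  refine ⟨relations_of_unit ha H, ?_⟩
  intro ℓ _ H₁ T Γ _ _ _ _ _ _ per ω₀ ρ χ ω hA hD γ hχ hγ Δ hΔ R _ _
  have hq : 0 < p ^ a := pow_pos (Fact.out : p.Prime).pos _
  have hweil : ∀ i, ∀ φ : E i →+* ℂ, ‖φ (π i)‖ ^ 2 = ((p ^ a : ℕ) : ℝ) := by
    intro i φ
    have h1 := congrArg (fun x => φ x) (H.weight i)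
    simp only [map_mul, map_pow, map_natCast] at h1
    rw [IsCMField.complexEmbedding_complexConj (E i) φ (π i), Complex.mul_conj,
      Complex.normSq_eq_norm_sq] at h1
    rw [Nat.cast_pow]
    exact_mod_cast h1
  have key : monodromy ρ χ Δ R = motivic per ρ χ Δ R := by
    refine tannakian_eq ((finBasis ℚ H₁).baseChange ℚ_[ℓ]) (fun m φ hφ => hφ.1)
      (fun m φ hφ => ?_) R
    exact descent (finBasis ℚ H₁) per ρ χ hD Δ
      (Pool.Agent.Q43.RP.mt_free E hq π hweil (shortFree_of_unit ha H 4)
        hA γ hχ hγ m φ ⟨Δ, hΔ, hφ⟩) hφ
  exact ⟨key, by rw [key]⟩

end Pool.Agent.Results.MP_d61fbb_ag.OneUnitRoot
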