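import Mathlib
import Pool.Agent.KS6_5.OF.Numbers
import Pool.Agent.KS6_5.OF.Torus

/-!
# The motivic Sato-Tate conjecture for abelian varieties with one Frobenius whose numbers are
separated by sign changes, with arbitrary Newton polygon

Let `A` be any abelian variety over a finitely generated subfield `k₀` of the complex numbers (no
condition on the dimension and the endomorphisms; factors of type IV are allowed), and `M = h^1(A)`.
Let `γ` be a Frobenius element at ONE place of good reduction, the residue field having `q = p ^ a`
elements, for which the characteristic polynomial is the product of the minimal polynomials of Weil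
numbers `π i` in CM fields `E i` (`i` in a finite set), with the following properties
(`IsSeparatedNumbers`). **The Newton polygon of the reduction is arbitrary**, but no `π i` has all
slopes `1 / 2`.

* `π i` generates `E i`, and `π i`, `π j` are not conjugate for `i ≠ j`;
* `(2 δ i) ^ 2 > 0` is at most the mean value of `(2 s - 1) ^ 2` over all slopes `s` of `π i`;
* any two conjugates `z`, `z'` of the numbers `π i` are **separated** (`Separated`): they are equal or
  have the product `q`, up to a root of unity, or **some** automorphism of the field of algebraic
  numbers fixes a power of one of them and maps a power of the other one to its complex conjugate;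
* `z z' / q` is not a root of unity different from one, for all conjugates `z`, `z'` of the `π i`
  (this is true after a finite extension of `k₀`).

**Theorem.** (1) There are no relations: each function `b` with integral values on the set of the
complex embeddings `φ` of the fields `E i` which changes its sign under complex conjugation, such that
the product of the `φ (π i) ^ b (φ)` is a root of unity, is zero (`relations`). That is, the Frobenius
torus has the largest possible rank `dim A + 1`.

(2) Over `k₀` and over every finite extension `k'` of `k₀` (the fixed field of a subgroup `Δ` of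
finite index of the Galois group) and for the prime `ℓ` of the Tate module

* the motivic Tate conjecture holds for `M`: the `ℓ`-adic monodromy group `G_{ℓ,k'}(M)` is the motivic
  Galois group `𝒢_{k'}(M)` (over `ℚ_ℓ`);
* the motivic Sato-Tate conjecture (Q1) holds for `M`: `G_{1,ℓ,k'}(M) = 𝒢_{1,k'}(M)`.

(3) **A criterion** (`IsTransitiveNumbers`): the last two conditions are satisfied if the
automorphisms which fix a conjugate `z` of `π i` permute the other conjugates, except for `q / z`,
transitively, and for `i ≠ j` the automorphisms which fix a conjugate of one of the numbers `π i`,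
`π j` permute the conjugates of the other one transitively. So it is sufficient that the Galois
group of `π i` has only three orbits on the pairs of conjugates, and that the fields `ℚ(z)`, `ℚ(z')`
are linearly disjoint for conjugates `z`, `z'` of different `π i`: **there is no condition on three
or more of the fields, on the decomposition of `p`, and on the slopes (except for `1 / 2`)**.

(4) The conditions are satisfied, with `δ i = 1 / 2`, if the `E i` are different imaginary quadratic
fields and `p` does not divide the numbers `b i = π i + q / π i`, i. e. for the abelian varieties with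
a reduction isogenous to a product of pairwise nonisogenous ordinary elliptic curves; `A` itself
can be absolutely simple, with any endomorphisms.

The equality in (2) is an equality of group schemes: for the groups of the points with values in any
commutative `ℚ_ℓ`-algebra `R`. Both groups are defined by tensors. `G_{ℓ,k'}(M)` is the group of the
automorphisms `u` of `R ⊗ V`, with a factor `c` for the Tate motive, which fix all Galois invariant
elements of the spaces `(V*)^{⊗ 2 m}(m)` (`monodromy`; this is the tannakian definition in the problem,
since the representation is semisimple by the theorem of Faltings and the tensors without weight are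
of this form by the Weil pairing). `𝒢_{k'}(M)` is the group of the automorphisms which fix the
motivic classes (absolute Hodge classes) over `k'`, which by Deligne's theorem are the Hodge classes whose
`ℓ`-adic realization is Galois invariant (`motivic`). The kernel of the multiplier is the group of the
`u` with `c = 1`: the form `ω` is one of the motivic tensors. Since the tannakian groups of all motives in
the category generated by `h^1(A)` are quotients of the two groups, Q1 follows for all these
motives (this is not formalized).

Relation to other results. The deduction of (2) from (1) is the one of the starting file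
`LargeFrobeniusTorus` on this problem (a defect `D` with `4 D < g`); for `D = 0`, the case of (1), it is
due to Zarhin, Larsen and Pink. New is (1), the maximality of the Frobenius torus. The criteria
of the starting files (`FrobeniusPatterns`, `FrobeniusSlopeSums`, `TypicalFields` and others) use
large Galois groups of the fields `E i` (all fields together) or special slopes, and other criteria
need `p` and one field containing all real multiplications. In `DifferentRealFields` on this problem
there are two slopes only and real fields with one place above `p`. Here the slopes and the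
decomposition of `p` are arbitrary, and only pairs of conjugates have to be considered, each pair
with its own automorphism.

The proof of (1). For an embedding `l` of the field of algebraic numbers into the algebraic closure
of the field of `p`-adic numbers let `F_z (l)` be the logarithm of the absolute value of
`l (z ^ 2 / q)`. If the automorphism `g` fixes a power of `z` and conjugates a power of `z'` then the
translation by `g` preserves `F_z` and changes the sign of `F_z'`: **so `F_z` and `F_z'` are
orthogonal to each other** for the mean value over all `l`, and the mean value of `F_z ^ 2` is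
positive. In a relation we match the pairs with product `q` as long as possible; the functions of
slopes of the unmatched numbers have nonnegative inner products and the sum zero, so that there are
none.

In the Lean statement `H` is `H_1(A, ℚ)`, `T` the tangent space at the origin, `per : H → T` the
inclusion; `ρ`, `χ`, `ω` are the Galois representation on the Tate module `ℚ_ℓ ⊗ H`, the cyclotomic
character and the Weil pairing (`IsAbelianVariety`; this contains the theorems of Faltings, the
theorem of Deligne and the theorem on centres of Vasiu, Ullmo and Yafaev); `GaloisActsOnHodge` is the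
full theorem of Deligne: the Galois group transforms Hodge classes into Hodge classes.
-/

set_option autoImplicit false

namespace Pool.Agent.Results.MP_d61fbb_ag.SeparatedByFlips

open NumberField Module TensorProduct Polynomial IntermediateField Pool.Agent.H204R3.GP
  Pool.Agent.W516.MTD Pool.Agent.TH776.FM Pool.Agent.Q43.ST Pool.Agent.KS6_5.OG
  Pool.Agent.KS6_5.OF

/-- The statement of (2) for the numbers `π i`. -/
def SatoTateFor (p a : ℕ) {I : Type} [Fintype I] {E : I → Type} [∀ i, Field (E i)]
    [∀ i, NumberField (E i)] (π : ∀ i, E i) : Prop :=
  ∀ (ℓ : ℕ) [Fact ℓ.Prime] (H T Γ : Type) [AddCommGroup H] [Module ℚ H]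
    [FiniteDimensional ℚ H] [AddCommGroup T] [Module ℂ T] [Group Γ] (per : H →+ T)
    (ω₀ : H →ₗ[ℚ] H →ₗ[ℚ] ℚ) (ρ : Representation ℚ_[ℓ] Γ (ℚ_[ℓ] ⊗[ℚ] H)) (χ : Γ →* ℚ_[ℓ])
    (ω : ℚ_[ℓ] ⊗[ℚ] H →ₗ[ℚ_[ℓ]] ℚ_[ℓ] ⊗[ℚ] H →ₗ[ℚ_[ℓ]] ℚ_[ℓ]),
    IsAbelianVariety per ω₀ ρ χ ω → GaloisActsOnHodge per ρ χ →
    ∀ γ : Γ, χ γ = ((p ^ a : ℕ) : ℚ_[ℓ]) →
    (ρ γ).charpoly = (∏ i, minpoly ℚ (π i)).map (algebraMap ℚ ℚ_[ℓ]) →
    ∀ Δ : Subgroup Γ, Δ.FiniteIndex → ∀ (R : Type) [CommRing R] [Algebra ℚ_[ℓ] R],
      monodromy ρ χ Δ R = motivic per ρ χ Δ R ∧
      multiplierKernel (monodromy ρ χ Δ R) = multiplierKernel (motivic per ρ χ Δ R)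

/-- **The motivic Tate conjecture and the motivic Sato-Tate conjecture for abelian varieties with one
Frobenius element, with arbitrary slopes, any two of whose numbers are separated by an automorphism
which fixes one of them and conjugates the other one.** -/
theorem result :
    (∀ (p : ℕ) [Fact p.Prime] (a : ℕ), 0 < a → ∀ (I : Type) [Fintype I] (δ : I → ℝ) (E : I → Type)
      [∀ i, Field (E i)] [∀ i, NumberField (E i)] [∀ i, IsCMField (E i)] (π : ∀ i, E i),
      IsSeparatedNumbers p a δ π →
      Pool.Agent.Q43.RP.relations E π = {0} ∧ SatoTateFor p a π) ∧
    (∀ (p : ℕ) [Fact p.Prime] (a : ℕ), 0 < a → ∀ (I : Type) (δ : I → ℝ) (E : I → Type)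
      [∀ i, Field (E i)] [∀ i, NumberField (E i)] [∀ i, IsCMField (E i)] (π : ∀ i, E i),
      IsTransitiveNumbers p a δ π → IsSeparatedNumbers p a δ π) ∧
    (∀ (p : ℕ) [Fact p.Prime] (a : ℕ), 0 < a → ∀ (I : Type) (E : I → Type)
      [∀ i, Field (E i)] [∀ i, NumberField (E i)] [∀ i, IsCMField (E i)] (π : ∀ i, E i)
      (b : I → ℤ), (∀ i, ℚ⟮π i⟯ = ⊤) →
      (∀ i, minpoly ℤ (π i) = X ^ 2 - C (b i) * X + C (((p ^ a : ℕ) : ℤ))) →
      (∀ i, ¬ (p : ℤ) ∣ b i) → (∀ i, b i ^ 2 < 4 * (p ^ a : ℕ)) →
      (∀ i j, i ≠ j → ¬ IsSquare ((b i ^ 2 - 4 * (p ^ a : ℕ)) * (b j ^ 2 - 4 * (p ^ a : ℕ)))) →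
      IsSeparatedNumbers p a (fun _ : I => 1 / 2) π) := by
  refine ⟨?_, ?_, ?_⟩
  · intro p _ a ha I _ δ E _ _ _ π H
    refine ⟨Pool.Agent.KS6_5.OF.relations_of_family ha H, ?_⟩
    intro ℓ _ H₁ T Γ _ _ _ _ _ _ per ω₀ ρ χ ω hA hD γ hχ hγ Δ hΔ R _ _
    have hq : 0 < p ^ a := pow_pos (Fact.out : p.Prime).pos _
    have hweil : ∀ i, ∀ φ : E i →+* ℂ, ‖φ (π i)‖ ^ 2 = ((p ^ a : ℕ) : ℝ) := by
      intro i φ
      have h1 := congrArg (fun x => φ x) (H.weight i)
      simp only [map_mul, map_pow, map_natCast] at h1
      rw [← conjugate_apply, ComplexEmbedding.conjugate_coe_eq, Complex.mul_conj,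
        Complex.normSq_eq_norm_sq] at h1
      rw [Nat.cast_pow]
      exact_mod_cast h1
    have key : monodromy ρ χ Δ R = motivic per ρ χ Δ R := by
      refine tannakian_eq ((finBasis ℚ H₁).baseChange ℚ_[ℓ]) (fun m φ hφ => hφ.1)
        (fun m φ hφ => ?_) R
      exact descent (finBasis ℚ H₁) per ρ χ hD Δ
        (Pool.Agent.Q43.RP.mt_free E hq π hweil (Pool.Agent.KS6_5.OF.shortFree_of_family ha H 4)
          hA γ hχ hγ m φ ⟨Δ, hΔ, hφ⟩) hφ
    exact ⟨key, by rw [key]⟩
  · intro p _ a ha I δ E _ _ _ π H
    exact numbers_of_transitive ha π H
  · intro p _ a ha I E _ _ _ π b hgen hmin hb hd h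
    exact ell_separated_numbers ha π hgen b hmin hb hd h

end Pool.Agent.Results.MP_d61fbb_ag.SeparatedByFlips
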